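import Mathlib

/-!
No Banach space with a `1`-unconditional basis has the super alternative Daugavet property.
-/

set_option autoImplicit false

open Filter Topology

universe u

namespace Pool.Agent.Results.MP_235f01_an.NoUnconditionalBasis

/-- `W` is a relatively weakly open subset of the closed unit ball of `X`. -/
def RelWeaklyOpen {X : Type u} [NormedAddCommGroup X] [NormedSpace ℝ X] (W : Set X) : Prop :=
  ∃ V : Set (WeakSpace ℝ X), IsOpen V ∧ W = (toWeakSpace ℝ X) ⁻¹' V ∩ Metric.closedBall 0 1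

/-- The super alternative Daugavet property: `X` is infinite-dimensional and, for every `x` of
norm one and every nonempty relatively weakly open subset `W` of the closed unit ball, the
supremum over `y ∈ W` of `max (‖x + y‖) (‖x - y‖)` is `2`. -/
def SuperADP (X : Type u) [NormedAddCommGroup X] [NormedSpace ℝ X] : Prop :=
  ¬ FiniteDimensional ℝ X ∧ ∀ x : X, ‖x‖ = 1 → ∀ W : Set X, W.Nonempty → RelWeaklyOpen W →
    IsLUB {r : ℝ | ∃ y ∈ W, r = max ‖x + y‖ ‖x - y‖} 2

/-- `e` is a Schauder basis of `X` (every vector has a unique expansion) which is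
`1`-unconditional: changes of signs of the coefficients of a finite linear combination do not
change the norm. -/
def IsOneUnconditionalBasis {X : Type u} [NormedAddCommGroup X] [NormedSpace ℝ X]
    (e : ℕ → X) : Prop :=
  (∀ x : X, ∃! a : ℕ → ℝ, Tendsto (fun N => ∑ i ∈ Finset.range N, a i • e i) atTop (𝓝 x)) ∧
  ∀ (s : Finset ℕ) (a ε : ℕ → ℝ), (∀ i, ε i = 1 ∨ ε i = -1) →
    ‖∑ i ∈ s, (ε i * a i) • e i‖ = ‖∑ i ∈ s, a i • e i‖

section

variable {X : Type u} [NormedAddCommGroup X] [NormedSpace ℝ X] {e : ℕ → X}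

/-- coefficients -/
noncomputable def co (h : IsOneUnconditionalBasis e) (x : X) : ℕ → ℝ := (h.1 x).choose

lemma co_tendsto (h : IsOneUnconditionalBasis e) (x : X) :
    Tendsto (fun N => ∑ i ∈ Finset.range N, co h x i • e i) atTop (𝓝 x) :=
  (h.1 x).choose_spec.1

lemma co_unique (h : IsOneUnconditionalBasis e) {x : X} {a : ℕ → ℝ}
    (ha : Tendsto (fun N => ∑ i ∈ Finset.range N, a i • e i) atTop (𝓝 x)) : a = co h x :=
  (h.1 x).choose_spec.2 a ha

lemma co_add (h : IsOneUnconditionalBasis e) (x y : X) : co h (x + y) = co h x + co h y := by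
  refine (co_unique h ?_).symm
  have := (co_tendsto h x).add (co_tendsto h y)
  refine this.congr fun N => ?_
  rw [← Finset.sum_add_distrib]
  exact Finset.sum_congr rfl fun i _ => (add_smul _ _ _).symm

lemma co_smul (h : IsOneUnconditionalBasis e) (c : ℝ) (x : X) : co h (c • x) = c • co h x := by
  refine (co_unique h ?_).symm
  have := (co_tendsto h x).const_smul c
  refine this.congr fun N => ?_
  rw [Finset.smul_sum]
  exact Finset.sum_congr rfl fun i _ => by rw [Pi.smul_apply, smul_eq_mul, mul_smul]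

lemma co_sum (h : IsOneUnconditionalBasis e) (s : Finset ℕ) (a : ℕ → ℝ) :
    co h (∑ i ∈ s, a i • e i) = fun i => if i ∈ s then a i else 0 := by
  refine (co_unique h ?_).symm
  obtain ⟨M, hM⟩ : ∃ M, s ⊆ Finset.range M := ⟨s.sup id + 1, fun i hi => by
    rw [Finset.mem_range, Nat.lt_succ_iff]; exact Finset.le_sup (f := id) hi⟩
  refine tendsto_const_nhds.congr' ?_
  filter_upwards [eventually_ge_atTop M] with N hN
  have hs : s ⊆ Finset.range N := hM.trans (Finset.range_subset_range.2 hN)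
  symm
  calc ∑ i ∈ Finset.range N, (if i ∈ s then a i else 0) • e i
      = ∑ i ∈ Finset.range N, if i ∈ s then a i • e i else 0 :=
        Finset.sum_congr rfl fun i _ => by split_ifs <;> simp
    _ = ∑ i ∈ s, a i • e i := by
        rw [Finset.sum_ite_mem, Finset.inter_eq_right.2 hs]

/-- partial sums on finite sets -/
noncomputable def P (h : IsOneUnconditionalBasis e) (s : Finset ℕ) (x : X) : X :=
  ∑ i ∈ s, co h x i • e i

/-- flipping the signs on a finite set does not increase the norm -/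
lemma flip_le (h : IsOneUnconditionalBasis e) (s : Finset ℕ) (x : X) :
    ‖x - (2 : ℝ) • P h s x‖ ≤ ‖x‖ := by
  obtain ⟨M, hM⟩ : ∃ M, s ⊆ Finset.range M := ⟨s.sup id + 1, fun i hi => by
    rw [Finset.mem_range, Nat.lt_succ_iff]; exact Finset.le_sup (f := id) hi⟩
  have h1 := ((co_tendsto h x).sub_const ((2 : ℝ) • P h s x)).norm
  have h2 := (co_tendsto h x).norm
  refine le_of_tendsto_of_tendsto h1 h2 ?_
  filter_upwards [eventually_ge_atTop M] with N hN
  have hs : s ⊆ Finset.range N := hM.trans (Finset.range_subset_range.2 hN)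
  have h3 := h.2 (Finset.range N) (co h x) (fun i => if i ∈ s then -1 else 1)
    (fun i => by split_ifs <;> simp)
  rw [← h3]
  apply le_of_eq
  congr 1
  have h4 : P h s x = ∑ i ∈ Finset.range N, if i ∈ s then co h x i • e i else 0 := by
    rw [Finset.sum_ite_mem, Finset.inter_eq_right.2 hs]; rfl
  rw [h4, Finset.smul_sum, ← Finset.sum_sub_distrib]
  refine Finset.sum_congr rfl fun i _ => ?_
  split_ifs
  · rw [neg_one_mul, neg_smul, two_smul]; abel
  · simp

lemma e_ne (h : IsOneUnconditionalBasis e) (i : ℕ) : e i ≠ 0 := by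
  intro h0
  have h1 := co_sum h {i} (fun _ => 1)
  have h2 := co_sum h {i} (fun _ => 2)
  simp only [Finset.sum_singleton, h0, smul_zero] at h1 h2
  have h3 := congrFun (h1.symm.trans h2) i
  simp at h3

lemma co_bound (h : IsOneUnconditionalBasis e) (x : X) (i : ℕ) : ‖co h x i • e i‖ ≤ ‖x‖ := by
  have h1 := flip_le h {i} x
  have h2 : (2 : ℝ) • (co h x i • e i) = x - (x - (2 : ℝ) • P h {i} x) := by
    unfold P; rw [Finset.sum_singleton]; abel
  have h3 : ‖(2 : ℝ) • (co h x i • e i)‖ ≤ 2 * ‖x‖ := by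
    rw [h2]; refine (norm_sub_le _ _).trans ?_; linarith
  rw [norm_smul, Real.norm_eq_abs, abs_of_pos (by norm_num : (0:ℝ) < 2)] at h3
  linarith

/-- coordinate functionals -/
noncomputable def f (h : IsOneUnconditionalBasis e) (i : ℕ) : X →L[ℝ] ℝ :=
  LinearMap.mkContinuous
    { toFun := fun x => co h x i
      map_add' := fun x y => by rw [co_add]; rfl
      map_smul' := fun c x => by rw [co_smul]; rfl } (‖e i‖⁻¹) (fun x => by
    have h1 := co_bound h x i
    rw [norm_smul] at h1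
    have h2 : 0 < ‖e i‖ := norm_pos_iff.2 (e_ne h i)
    change ‖co h x i‖ ≤ _
    rw [inv_mul_eq_div, le_div_iff₀ h2]
    exact h1)

lemma f_apply (h : IsOneUnconditionalBasis e) (i : ℕ) (x : X) : f h i x = co h x i := rfl

/-- weakly open sets given by finitely many coordinates -/
lemma relWeaklyOpen_coord (h : IsOneUnconditionalBasis e) (s : Finset ℕ) (c : ℕ → ℝ) (η : ℝ) :
    RelWeaklyOpen {y : X | (∀ i ∈ s, |co h y i - c i| < η) ∧ ‖y‖ ≤ 1} := by
  refine ⟨⋂ i ∈ s, {z : WeakSpace ℝ X | |f h i ((toWeakSpace ℝ X).symm z) - c i| < η}, ?_, ?_⟩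
  · refine isOpen_biInter_finset fun i _ => ?_
    have hc : Continuous fun z : WeakSpace ℝ X => f h i ((toWeakSpace ℝ X).symm z) :=
      WeakBilin.eval_continuous (topDualPairing ℝ X).flip (f h i)
    exact isOpen_lt ((hc.sub continuous_const).abs) continuous_const
  · ext y
    simp only [Set.mem_ofPred_eq, Set.mem_inter_iff, Set.mem_preimage, Set.mem_iInter,
      LinearEquiv.symm_apply_apply, f_apply, mem_closedBall_zero_iff]

/-- a finite combination with small coefficients is small -/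
lemma small_sum (s t : Finset ℕ) (hst : s ⊆ t) (b : ℕ → ℝ) {η : ℝ} (hη : 0 ≤ η)
    (hb : ∀ i ∈ s, |b i| ≤ 2 * η) :
    ‖∑ i ∈ s, b i • e i‖ ≤ (∑ i ∈ t, 2 * ‖e i‖) * η := by
  calc ‖∑ i ∈ s, b i • e i‖ ≤ ∑ i ∈ s, ‖b i • e i‖ := norm_sum_le _ _
    _ ≤ ∑ i ∈ s, 2 * ‖e i‖ * η := by
        refine Finset.sum_le_sum fun i hi => ?_
        rw [norm_smul, Real.norm_eq_abs]
        nlinarith [hb i hi, norm_nonneg (e i)]
    _ ≤ ∑ i ∈ t, 2 * ‖e i‖ * η :=
        Finset.sum_le_sum_of_subset_of_nonneg hst fun i _ _ => by positivity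
    _ = _ := (Finset.sum_mul _ _ _).symm

/-- the estimate for the points of the weakly open set -/
lemma est (h : IsOneUnconditionalBasis e) (A B : Finset ℕ) (a : ℕ → ℝ) {η : ℝ} (hη : 0 ≤ η)
    {y : X} (hy : ‖y‖ ≤ 1) (hB : ∀ i ∈ B, |a i + 2 * co h y i| ≤ 2 * η) :
    ‖∑ i ∈ A, a i • e i + ∑ i ∈ B, a i • e i + y‖ ≤
      ‖∑ i ∈ A, a i • e i‖ + 1 + (∑ i ∈ A ∪ B, 2 * ‖e i‖) * η := by
  have h1 : ∑ i ∈ A, a i • e i + ∑ i ∈ B, a i • e i + y =
      ∑ i ∈ A, a i • e i + (y - (2 : ℝ) • P h B y) + ∑ i ∈ B, (a i + 2 * co h y i) • e i := by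
    have h2 : ∑ i ∈ B, (a i + 2 * co h y i) • e i =
        ∑ i ∈ B, a i • e i + (2 : ℝ) • P h B y := by
      unfold P
      rw [Finset.smul_sum, ← Finset.sum_add_distrib]
      exact Finset.sum_congr rfl fun i _ => by rw [add_smul, mul_smul]
    rw [h2]; abel
  rw [h1]
  have h3 := norm_add_le (∑ i ∈ A, a i • e i + (y - (2 : ℝ) • P h B y))
    (∑ i ∈ B, (a i + 2 * co h y i) • e i)
  have h4 := norm_add_le (∑ i ∈ A, a i • e i) (y - (2 : ℝ) • P h B y)
  have h5 := flip_le h B y
  have h6 := small_sum (e := e) B (A ∪ B) Finset.subset_union_right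
    (fun i => a i + 2 * co h y i) hη hB
  linarith

/-- the main step, normalised -/
lemma max_ge_one (h : IsOneUnconditionalBasis e) (hX : SuperADP X) (A B : Finset ℕ)
    (hAB : Disjoint A B) (a : ℕ → ℝ) (h1 : ‖∑ i ∈ A, a i • e i + ∑ i ∈ B, a i • e i‖ = 1) :
    1 ≤ max ‖∑ i ∈ A, a i • e i‖ ‖∑ i ∈ B, a i • e i‖ := by
  set K := ∑ i ∈ A ∪ B, 2 * ‖e i‖ with hK
  have hK0 : 0 ≤ K := Finset.sum_nonneg fun i _ => by positivity
  -- the centre of the weakly open set
  set c : ℕ → ℝ := fun i => if i ∈ A then a i / 2 else -(a i / 2) with hc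
  have hcA : ∀ i ∈ A, c i = a i / 2 := fun i hi => by simp only [hc]; rw [if_pos hi]
  have hcB : ∀ i ∈ B, c i = -(a i / 2) := fun i hi => by
    simp only [hc]; rw [if_neg (Finset.disjoint_right.1 hAB hi)]
  have hxsum : ∑ i ∈ A, a i • e i + ∑ i ∈ B, a i • e i = ∑ i ∈ A ∪ B, a i • e i :=
    (Finset.sum_union hAB).symm
  have hmem : ∀ η : ℝ, 0 < η →
      (∑ i ∈ A ∪ B, c i • e i) ∈
        {y : X | (∀ i ∈ A ∪ B, |co h y i - c i| < η) ∧ ‖y‖ ≤ 1} := by
    intro η hη
    refine ⟨fun i hi => ?_, ?_⟩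
    · rw [co_sum h]
      simp only [hi, if_true, sub_self, abs_zero]
      exact hη
    · have h2 := h.2 (A ∪ B) a (fun i => if i ∈ A then 1 else -1)
        (fun i => by split_ifs <;> simp)
      have h3 : ∑ i ∈ A ∪ B, c i • e i =
          (1 / 2 : ℝ) • ∑ i ∈ A ∪ B, ((if i ∈ A then (1 : ℝ) else -1) * a i) • e i := by
        rw [Finset.smul_sum]
        refine Finset.sum_congr rfl fun i _ => ?_
        rw [smul_smul]
        congr 1
        simp only [hc]
        split_ifs <;> ring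
      rw [h3, norm_smul, h2, ← hxsum, h1]
      norm_num
  have hkey : ∀ η : ℝ, 0 < η →
      1 ≤ max ‖∑ i ∈ A, a i • e i‖ ‖∑ i ∈ B, a i • e i‖ + K * η := by
    intro η hη
    have hW := hX.2 _ h1 {y : X | (∀ i ∈ A ∪ B, |co h y i - c i| < η) ∧ ‖y‖ ≤ 1}
      ⟨_, hmem η hη⟩ (relWeaklyOpen_coord h (A ∪ B) c η)
    have hub : (max ‖∑ i ∈ A, a i • e i‖ ‖∑ i ∈ B, a i • e i‖ + K * η + 1) ∈
        upperBounds {r : ℝ | ∃ y ∈ {y : X | (∀ i ∈ A ∪ B, |co h y i - c i| < η) ∧ ‖y‖ ≤ 1},
          r = max ‖∑ i ∈ A, a i • e i + ∑ i ∈ B, a i • e i + y‖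
            ‖∑ i ∈ A, a i • e i + ∑ i ∈ B, a i • e i - y‖} := by
      rintro r ⟨y, ⟨hy1, hy2⟩, rfl⟩
      apply max_le
      · have h4 := est h A B a hη.le hy2 (fun i hi => by
          have h5 := hy1 i (Finset.mem_union_right _ hi)
          rw [hcB i hi] at h5
          have h6 : a i + 2 * co h y i = 2 * (co h y i - -(a i / 2)) := by ring
          rw [h6, abs_mul, abs_of_pos (by norm_num : (0:ℝ) < 2)]
          linarith)
        linarith [le_max_left ‖∑ i ∈ A, a i • e i‖ ‖∑ i ∈ B, a i • e i‖]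
      · have hcoy : ∀ i, co h (-y) i = - co h y i := fun i => by
          have := co_smul h (-1) y
          rw [neg_one_smul] at this
          rw [this]; simp
        have h4 := est h B A a hη.le (y := -y) (by rw [norm_neg]; exact hy2) (fun i hi => by
          have h5 := hy1 i (Finset.mem_union_left _ hi)
          rw [hcA i hi] at h5
          have h6 : a i + 2 * co h (-y) i = -(2 * (co h y i - a i / 2)) := by
            rw [hcoy]; ring
          rw [h6, abs_neg, abs_mul, abs_of_pos (by norm_num : (0:ℝ) < 2)]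
          linarith)
        rw [Finset.union_comm B A, add_comm (∑ i ∈ B, a i • e i)] at h4
        rw [sub_eq_add_neg]
        linarith [le_max_right ‖∑ i ∈ A, a i • e i‖ ‖∑ i ∈ B, a i • e i‖]
    have := hW.2 hub
    linarith
  refine le_of_forall_pos_le_add fun δ hδ => ?_
  have h7 := hkey (δ / (K + 1)) (by positivity)
  have h8 : K * (δ / (K + 1)) ≤ δ := by
    rw [mul_div_assoc', div_le_iff₀ (by positivity)]
    nlinarith
  linarith

/-- the main step -/
lemma max_ge (h : IsOneUnconditionalBasis e) (hX : SuperADP X) (A B : Finset ℕ)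
    (hAB : Disjoint A B) (a : ℕ → ℝ) :
    ‖∑ i ∈ A, a i • e i + ∑ i ∈ B, a i • e i‖ ≤
      max ‖∑ i ∈ A, a i • e i‖ ‖∑ i ∈ B, a i • e i‖ := by
  set n := ‖∑ i ∈ A, a i • e i + ∑ i ∈ B, a i • e i‖ with hn
  rcases (norm_nonneg (∑ i ∈ A, a i • e i + ∑ i ∈ B, a i • e i)).eq_or_lt with h0 | h0
  · rw [← hn] at h0
    rw [← h0]; exact le_max_of_le_left (norm_nonneg _)
  rw [← hn] at h0
  have hs : ∀ s : Finset ℕ, ∑ i ∈ s, (n⁻¹ * a i) • e i = n⁻¹ • ∑ i ∈ s, a i • e i := fun s => by
    rw [Finset.smul_sum]; exact Finset.sum_congr rfl fun i _ => by rw [mul_smul]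
  have h1 := max_ge_one h hX A B hAB (fun i => n⁻¹ * a i) (by
    rw [hs, hs, ← smul_add, norm_smul, norm_inv, ← hn, Real.norm_eq_abs, abs_of_pos h0,
      inv_mul_cancel₀ h0.ne'])
  rw [hs, hs, norm_smul, norm_smul, norm_inv, Real.norm_eq_abs, abs_of_pos h0,
    ← mul_max_of_nonneg _ _ (inv_nonneg.2 h0.le), inv_mul_eq_div, le_div_iff₀ h0, one_mul] at h1
  exact h1

/-- so the norm is the norm of `c₀` -/
lemma sup_norm (h : IsOneUnconditionalBasis e) (hX : SuperADP X) (a : ℕ → ℝ) {C : ℝ}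
    (hC : 0 ≤ C) (s : Finset ℕ) (hs : ∀ i ∈ s, ‖a i • e i‖ ≤ C) :
    ‖∑ i ∈ s, a i • e i‖ ≤ C := by
  induction s using Finset.induction_on with
  | empty => simpa using hC
  | insert j s hj ih =>
    rw [Finset.sum_insert hj]
    have h1 := max_ge h hX {j} s (by simpa using hj) a
    rw [Finset.sum_singleton] at h1
    exact h1.trans (max_le (hs j (Finset.mem_insert_self _ _))
      (ih fun i hi => hs i (Finset.mem_insert_of_mem hi)))

end

/-- No Banach space with a `1`-unconditional basis has the super alternative Daugavet property. -/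
theorem result (X : Type u) [NormedAddCommGroup X] [NormedSpace ℝ X] [CompleteSpace X]
    (e : ℕ → X) (h : IsOneUnconditionalBasis e) : ¬ SuperADP X := by
  intro hX
  have he : 0 < ‖e 0‖ := norm_pos_iff.2 (e_ne h 0)
  set x : X := ‖e 0‖⁻¹ • e 0 with hx
  have hx1 : ‖x‖ = 1 := by
    rw [hx, norm_smul, norm_inv, norm_norm, inv_mul_cancel₀ he.ne']
  set η : ℝ := (2 * ‖e 0‖)⁻¹ with hη
  have hη0 : 0 < η := by positivity
  have hW := hX.2 x hx1 {y : X | (∀ i ∈ ({0} : Finset ℕ), |co h y i - 0| < η) ∧ ‖y‖ ≤ 1}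
    ⟨0, by
      have h0 : co h (0 : X) = 0 := by
        have := co_smul h 0 (0 : X)
        rwa [zero_smul, zero_smul] at this
      refine ⟨fun i _ => ?_, by simp⟩
      rw [h0]; simpa using hη0⟩ (relWeaklyOpen_coord h {0} (fun _ => 0) η)
  have key : ∀ y : X, |co h y 0| < η → ‖y‖ ≤ 1 → ‖x + y‖ ≤ 3 / 2 := by
    intro y hy0 hy
    have h1 := ((co_tendsto h y).const_add x).norm
    refine le_of_tendsto h1 ?_
    filter_upwards [eventually_ge_atTop 1] with N hN
    have h2 : x + ∑ i ∈ Finset.range N, co h y i • e i =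
        ∑ i ∈ Finset.range N, (co h y i + if i = 0 then ‖e 0‖⁻¹ else 0) • e i := by
      simp only [add_smul, Finset.sum_add_distrib, ite_smul, zero_smul]
      rw [Finset.sum_ite_eq' (Finset.range N) 0 (fun i => ‖e 0‖⁻¹ • e i),
        if_pos (Finset.mem_range.2 (by omega)), add_comm]
    rw [h2]
    refine sup_norm h hX _ (by norm_num) _ fun i _ => ?_
    by_cases hi : i = 0
    · subst hi
      rw [if_pos rfl, norm_smul, Real.norm_eq_abs]
      have h3 : |co h y 0 + ‖e 0‖⁻¹| ≤ η + ‖e 0‖⁻¹ := by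
        refine (abs_add_le _ _).trans ?_
        rw [abs_of_pos (inv_pos.2 he)]
        linarith
      have h4 : (η + ‖e 0‖⁻¹) * ‖e 0‖ = 3 / 2 := by
        rw [hη]; field_simp; norm_num
      calc |co h y 0 + ‖e 0‖⁻¹| * ‖e 0‖ ≤ (η + ‖e 0‖⁻¹) * ‖e 0‖ :=
            mul_le_mul_of_nonneg_right h3 he.le
        _ = 3 / 2 := h4
    · rw [if_neg hi, add_zero]
      exact (co_bound h y i).trans (hy.trans (by norm_num))
  have hub : (3 / 2 : ℝ) ∈ upperBounds {r : ℝ |
      ∃ y ∈ {y : X | (∀ i ∈ ({0} : Finset ℕ), |co h y i - 0| < η) ∧ ‖y‖ ≤ 1},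
        r = max ‖x + y‖ ‖x - y‖} := by
    rintro r ⟨y, ⟨hy1, hy2⟩, rfl⟩
    have h5 := hy1 0 (Finset.mem_singleton_self 0)
    rw [sub_zero] at h5
    apply max_le
    · exact key y h5 hy2
    · rw [sub_eq_add_neg]
      refine key (-y) ?_ (by rwa [norm_neg])
      have := co_smul h (-1) y
      rw [neg_one_smul] at this
      rw [this]; simpa using h5
  have := hW.2 hub
  norm_num at this

end Pool.Agent.Results.MP_235f01_an.NoUnconditionalBasis
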